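import Pool.Agent.LPR.Stmts

set_option autoImplicit false

namespace Pool.Agent.LPR.H19

open Pool.Agent.LSG Pool.Agent.LPR

theorem uni (alg : AlgStmt) (sgs : SgsStmt) (sub : SubStmt) (pu2 : Pu2Stmt) : UniStmt := by
  intro X _ _ O₁ O₂ h1 h2 hs1 hs2
  have a1 := (alg ↥(Fo O₁) ↥(Fo O₁) ↥(Sg O₁) ↥(Sg O₁)).1 hs1 ((sgs X).1 O₁)
  have a2 := (alg ↥(Fo O₂) ↥(Fo O₂) ↥(Sg O₂) ↥(Sg O₂)).1 hs2 ((sgs X).1 O₂)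
  have b1 := (alg ↥(Fo (O₁ ∪ O₂)) ↥(Fo O₁) ↥(Sg O₁) ↥(Sg O₁)).2.1
    (sub X O₁ (O₁ ∪ O₂) h1 Set.subset_union_left) a1
  have b2 := (alg ↥(Fo (O₁ ∪ O₂)) ↥(Fo O₂) ↥(Sg O₂) ↥(Sg O₂)).2.1
    (sub X O₂ (O₁ ∪ O₂) h2 Set.subset_union_right) a2
  have c := (alg ↥(Fo (O₁ ∪ O₂)) ↥(Fo (O₁ ∪ O₂)) ↥(Sg O₁) ↥(Sg O₂)).2.2.2 b1 b2
  exact (alg ↥(Fo (O₁ ∪ O₂)) (↥(Sg O₁) × ↥(Sg O₂)) ↥(Sg (O₁ ∪ O₂)) ↥(Sg O₁)).2.2.1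
    (pu2 X O₁ O₂ h1 h2) c

end Pool.Agent.LPR.H19
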